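import Pool.Agent.Q15.AvoidB.Basic

/-!
# `k` Bernoulli walkers: an upper bound for the parameter of a 1-avoidance coupling

Between two moves of the first walker at most one of the other `k - 1` walkers moves to `1`, and
none does unless the first walker is at `0` before and after; so `(k - 1) p ≤ (1 - p) ^ 2`.
-/

open Pool.Agent.Q15.AvoidB

namespace Pool.Agent.Results.MP_f1618c_pr.ManyWalkersBound

/-- Every 1-avoidance coupling of `k` Bernoulli(`p`) walkers satisfies
`(k - 1) p ≤ (1 - p) ^ 2`. Hence `p_k` is at most the smaller root of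
`x ^ 2 - (k + 1) x + 1 = 0`, which is smaller than `1 / k`. -/
theorem result :
    (∀ (k : ℕ) (p : ℝ), HasCoupling k p → ((k : ℝ) - 1) * p ≤ (1 - p) ^ 2) ∧
    ∀ k : ℕ, 2 ≤ k → pSup k ≤ ((k : ℝ) + 1 - √(((k : ℝ) - 1) * (k + 3))) / 2 ∧
      ((k : ℝ) + 1 - √(((k : ℝ) - 1) * (k + 3))) / 2 < 1 / k := by
  refine ⟨fun k p h => (bound_first h).1, fun k hk => ⟨?_, root_lt hk⟩⟩
  refine Real.sSup_le (fun p hp => le_root hk hp) ?_
  have hk' : (2 : ℝ) ≤ k := by exact_mod_cast hk
  have h1 : √(((k : ℝ) - 1) * (k + 3)) ≤ (k : ℝ) + 1 :=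
    Real.sqrt_le_iff.mpr ⟨by linarith, by nlinarith⟩
  linarith

end Pool.Agent.Results.MP_f1618c_pr.ManyWalkersBound
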