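import Pool.Agent.Q15.AvoidB.Basic

/-!
# Two Bernoulli walkers: the largest parameter of a 1-avoidance coupling is `1 / 3`

If the second walker is at `1` at time `t`, then the first walker is at `0` at the times `t` and
`t + 1`. So if the first walker has no two consecutive zeros among its entries `0, …, m`, then the
second walker is at `0` at the times `0, …, m - 1`, an event of probability `(1 - p) ^ m`. For
`p ≥ 1 / 3` the first event has probability at least `(2 / 3) ^ (m + 1)`, hence `p ≤ 1 / 3`.
For `p = 1 / 3` a coupling is constructed from an i.i.d. uniform sequence of three letters.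
-/

open Pool.Agent.Q15.AvoidB

namespace Pool.Agent.Results.MP_f1618c_pr.TwoWalkersOneThird

/-- The largest `p` for which there is a 1-avoidance coupling of two Bernoulli(`p`) walkers is
`1 / 3`; in particular `p_2 = 1 / 3`. -/
theorem result : IsGreatest {p : ℝ | HasCoupling 2 p} (1 / 3) ∧ pSup 2 = 1 / 3 := by
  have hG : IsGreatest {p : ℝ | HasCoupling 2 p} (1 / 3) := by
    refine ⟨coupling_third, ?_⟩
    rintro p ⟨hk, Ω, mΩ, μ, X, hμ, h⟩
    exact two_le hk h
  exact ⟨hG, hG.csSup_eq⟩

end Pool.Agent.Results.MP_f1618c_pr.TwoWalkersOneThird
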